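import Mathlib

/-!
Definitions: instances and preemptive schedules for `P | pmtn | ∑ w_j U_j`, mixed-integer linear
programs, and the explicit mixed-integer linear program attached to an instance.
-/

namespace Pool.Agent.Lib.MP_1f44d9_lc

open MeasureTheory

/-- An instance of `P | pmtn | ∑ w_j U_j`: `n` jobs with natural processing times `p`, due dates `d`
and weights `w` (the problem `P | pmtn | ∑ U_j` is the case `w = 1`), and `m ≥ 1` identical
parallel machines. -/
structure Inst where
  /-- number of jobs -/
  n : ℕ
  /-- number of machines -/
  m : ℕ
  hm : 0 < m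
  /-- processing times -/
  p : Fin n → ℕ
  /-- due dates -/
  d : Fin n → ℕ
  /-- weights -/
  w : Fin n → ℕ

/-- A preemptive schedule. `on i t = some j` means that machine `i` processes job `j` at time `t`,
`on i t = none` means that machine `i` is idle at time `t`. Nothing happens before time `0` or
after some finite time, no job runs on two machines at the same time, and job `j` receives
exactly `p j` units of processing (Lebesgue measure of the set of times at which it runs). -/
structure Schedule (I : Inst) where
  on : Fin I.m → ℝ → Option (Fin I.n)
  measurable_on : ∀ i j, MeasurableSet {t | on i t = some j}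
  idle_before : ∀ i t, t < 0 → on i t = none
  idle_after : ∃ T : ℝ, ∀ i t, T < t → on i t = none
  no_parallel : ∀ t i i' j, on i t = some j → on i' t = some j → i = i'
  processed : ∀ j, volume {t | ∃ i, on i t = some j} = (I.p j : ENNReal)

namespace Schedule

variable {I : Inst} (σ : Schedule I)

/-- The amount of processing that job `j` receives up to time `t`. -/
noncomputable def work (j : Fin I.n) (t : ℝ) : ℝ :=
  (volume {s | s ≤ t ∧ ∃ i, σ.on i s = some j}).toReal

/-- The completion time `C_j`: the first time at which job `j` has received `p j` units. -/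
noncomputable def completion (j : Fin I.n) : ℝ :=
  sInf {t | 0 ≤ t ∧ (I.p j : ℝ) ≤ σ.work j t}

open Classical in
/-- The objective `∑ w_j U_j`: the total weight of the tardy jobs (those with `C_j > d_j`). -/
noncomputable def cost : ℕ :=
  ∑ j ∈ Finset.univ.filter (fun j => (I.d j : ℝ) < σ.completion j), I.w j

/-- All preemptions, starts and completions take place at integer times (so there are only
finitely many of them). -/
def Integral : Prop := ∀ i t, 0 ≤ t → σ.on i t = σ.on i (⌊t⌋₊ : ℝ)

end Schedule

/-- A system of linear inequalities with integer coefficients, in integer unknowns indexed by `ι`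
and real unknowns indexed by `κ`; the inequalities are indexed by `ρ`. -/
structure MILP (ι κ ρ : Type) where
  A : ρ → ι → ℤ
  B : ρ → κ → ℤ
  b : ρ → ℤ

/-- The system `A x + B y ≤ b` has a solution with `x` integral and `y` real. -/
def MILP.Feasible {ι κ ρ : Type} [Fintype ι] [Fintype κ] (M : MILP ι κ ρ) : Prop :=
  ∃ (x : ι → ℤ) (y : κ → ℝ), ∀ r,
    ∑ i, (M.A r i : ℝ) * (x i : ℝ) + ∑ k, (M.B r k : ℝ) * y k ≤ (M.b r : ℝ)

section

variable (I : Inst)

/-- The classes of jobs: the pairs `(p, w)` that occur among the jobs. If all weights are `1`,
these correspond to the distinct processing times. -/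
abbrev Cls : Type := {c : ℕ × ℕ // c ∈ Finset.univ.image (fun j => (I.p j, I.w j))}

/-- The class of job `j`. -/
def cls (j : Fin I.n) : Cls I := ⟨(I.p j, I.w j), Finset.mem_image_of_mem _ (Finset.mem_univ j)⟩

/-- The relevant points in time: `none` stands for `0`, `some j` stands for the due date of `j`. -/
abbrev Tm : Type := Option (Fin I.n)

/-- The value of a relevant point in time. -/
def tm : Tm I → ℕ
  | none => 0
  | some j => I.d j

/-- `j'` precedes `j`: both are in the same class and `j'` has the later due date (ties are broken
by the index). -/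
def Before (j' j : Fin I.n) : Prop :=
  cls I j' = cls I j ∧ (I.d j < I.d j' ∨ (I.d j' = I.d j ∧ j' < j))

instance : DecidableRel (Before I) := fun _ _ => by unfold Before; infer_instance

/-- The number of jobs of the same class that precede job `j`. -/
def rk (j : Fin I.n) : ℕ := (Finset.univ.filter (fun j' => Before I j' j)).card

/-- The amount of work on job `j` that has to be done before time `t` if `j` is to be completed by
its due date: `max (0, p_j - max (0, d_j - t))` (truncated subtraction). -/
def mand (j : Fin I.n) (t : ℕ) : ℕ := I.p j - (I.d j - t)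

/-- The number of jobs of class `c`. -/
def cnt (c : Cls I) : ℕ := (Finset.univ.filter (fun j => cls I j = c)).card

/-- The inequalities of the program: `0 ≤ x_c`, `x_c ≤ cnt c`, capacity at each relevant time,
supporting lines for each job and relevant time, and the objective. -/
abbrev Con : Type := Cls I ⊕ Cls I ⊕ Tm I ⊕ (Fin I.n × Tm I) ⊕ Unit

/-- The mixed-integer linear program of an instance and a bound `v`. The integer unknowns are
`x_c` for the classes `c` (the number of jobs of class `c` that are on time) and the real unknowns
are `y_(c,τ)` for the classes `c` and relevant times `τ`. The inequalities are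

* `-x_c ≤ 0` and `x_c ≤ cnt c` for each class `c`;
* `∑_c y_(c,τ) ≤ m * tm τ` for each relevant time `τ`;
* for each job `j`, of class `c` and rank `r = rk j`, and each relevant time `τ`:
  `∑_{j' before j} mand j' τ + (x_c - r) * mand j τ ≤ y_(c,τ)`;
* `∑_c w_c x_c ≥ ∑_j w_j - v`. -/
def milp (v : ℕ) : MILP (Cls I) (Cls I × Tm I) (Con I) where
  A := fun r c => match r with
    | .inl c' => if c = c' then -1 else 0
    | .inr (.inl c') => if c = c' then 1 else 0
    | .inr (.inr (.inl _)) => 0
    | .inr (.inr (.inr (.inl (j, τ)))) => if c = cls I j then (mand I j (tm I τ) : ℤ) else 0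
    | .inr (.inr (.inr (.inr _))) => -(c.1.2 : ℤ)
  B := fun r k => match r with
    | .inl _ => 0
    | .inr (.inl _) => 0
    | .inr (.inr (.inl τ)) => if k.2 = τ then 1 else 0
    | .inr (.inr (.inr (.inl (j, τ)))) => if k = (cls I j, τ) then -1 else 0
    | .inr (.inr (.inr (.inr _))) => 0
  b := fun r => match r with
    | .inl _ => 0
    | .inr (.inl c) => (cnt I c : ℤ)
    | .inr (.inr (.inl τ)) => (I.m : ℤ) * (tm I τ : ℤ)
    | .inr (.inr (.inr (.inl (j, τ)))) => (rk I j : ℤ) * (mand I j (tm I τ) : ℤ) -
        ∑ j' ∈ Finset.univ.filter (fun j' => Before I j' j), (mand I j' (tm I τ) : ℤ)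
    | .inr (.inr (.inr (.inr _))) => (v : ℤ) - ∑ j, (I.w j : ℤ)

end

end Pool.Agent.Lib.MP_1f44d9_lc
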