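import Mathlib

/-!
Discrete core: unit time slots, nested availability.

`slots_exist`: if every job `j ∈ S` has processing requirement `p j` and deadline `d j ≤ D`, and
for all `t ≤ D` the mandatory work `∑ (p j - (d j - t))` (truncated subtraction) is at most `m * t`,
then the jobs can be assigned to unit slots `0, …, D-1`, at most `m` jobs per slot.
-/

namespace Pool.Agent.Lib.MP_1f44d9_lc

open Finset

variable {ι : Type*} [DecidableEq ι]

/-- Choose the `k` elements with the largest values of `p`. -/
lemma exists_top (E : Finset ι) (p : ι → ℕ) : ∀ k ≤ E.card, ∃ A ⊆ E, A.card = k ∧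
    ∀ a ∈ A, ∀ b ∈ E \ A, p b ≤ p a := by
  intro k
  induction k with
  | zero => intro _; exact ⟨∅, by simp, by simp, by simp⟩
  | succ k ih =>
    intro hk
    obtain ⟨A, hAE, hAc, hA⟩ := ih (by omega)
    have hne : (E \ A).Nonempty := by
      rw [← Finset.card_pos, Finset.card_sdiff_of_subset hAE]; omega
    obtain ⟨x, hx, hmax⟩ := Finset.exists_max_image (E \ A) p hne
    have hxA : x ∉ A := (Finset.mem_sdiff.mp hx).2
    have hxE : x ∈ E := (Finset.mem_sdiff.mp hx).1
    refine ⟨insert x A, Finset.insert_subset hxE hAE, by rw [Finset.card_insert_of_notMem hxA, hAc], ?_⟩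
    intro a ha b hb
    rw [Finset.mem_sdiff, Finset.mem_insert, not_or] at hb
    obtain ⟨hbE, hbx, hbA⟩ := hb
    have hb' : b ∈ E \ A := Finset.mem_sdiff.mpr ⟨hbE, hbA⟩
    rcases Finset.mem_insert.mp ha with rfl | ha
    · exact hmax b hb'
    · exact hA a ha b hb'

theorem slots_exist (m : ℕ) : ∀ (D : ℕ) (S : Finset ι) (p d : ι → ℕ),
    (∀ j ∈ S, d j ≤ D) →
    (∀ t ≤ D, ∑ j ∈ S, (p j - (d j - t)) ≤ m * t) →
    ∃ A : ℕ → Finset ι, (∀ s, A s ⊆ S) ∧ (∀ s, (A s).card ≤ m) ∧ (∀ s, D ≤ s → A s = ∅) ∧
      (∀ s, ∀ j ∈ A s, s < d j) ∧ (∀ j ∈ S, ((range D).filter (fun s => j ∈ A s)).card = p j) := by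
  intro D
  induction D with
  | zero =>
    intro S p d hd hc
    refine ⟨fun _ => ∅, by simp, by simp, by simp, by simp, ?_⟩
    intro j hj
    have h0 := hc 0 le_rfl
    simp only [mul_zero, nonpos_iff_eq_zero, Finset.sum_eq_zero_iff] at h0
    have := h0 j hj
    have hdj := hd j hj
    simp; omega
  | succ D ih =>
    intro S p d hd hc
    set E : Finset ι := S.filter (fun j => d j = D + 1 ∧ 0 < p j) with hE
    obtain ⟨A, hAE, hAc, hA⟩ := exists_top E p (min m E.card) (min_le_right _ _)
    have hAS : A ⊆ S := hAE.trans (Finset.filter_subset _ _)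
    have hAd : ∀ j ∈ A, d j = D + 1 ∧ 0 < p j := fun j hj => (Finset.mem_filter.mp (hAE hj)).2
    let p' : ι → ℕ := fun j => if j ∈ A then p j - 1 else p j
    let d' : ι → ℕ := fun j => min (d j) D
    have hcond : ∀ t ≤ D, ∑ j ∈ S, (p' j - (d' j - t)) ≤ m * t := by
      intro t ht
      set Q : Finset ι := S.filter (fun j => d j = D + 1 ∧ D + 1 - t ≤ p j) with hQ
      have hterm : ∀ j ∈ S, p' j - (d' j - t) ≤ (p j - (d j - t)) + (if j ∈ Q \ A then 1 else 0) := by
        intro j hj
        by_cases hjA : j ∈ A
        · have := hAd j hjA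
          simp only [p', d', hjA, if_true]
          have hm : min (d j) D = D := by rw [this.1]; omega
          rw [hm, this.1]
          omega
        · simp only [p', d', hjA, if_false]
          have hdj := hd j hj
          by_cases hdj' : d j = D + 1
          · rw [hdj']
            have hm : min (D+1) D = D := by omega
            rw [hm]
            by_cases hp : D + 1 - t ≤ p j
            · have : j ∈ Q \ A := by
                rw [Finset.mem_sdiff]; exact ⟨Finset.mem_filter.mpr ⟨hj, hdj', hp⟩, hjA⟩
              rw [if_pos this]; omega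
            · omega
          · have hm : min (d j) D = d j := by omega
            rw [hm]; omega
      have hsum : ∑ j ∈ S, (p' j - (d' j - t)) ≤ ∑ j ∈ S, (p j - (d j - t)) + (Q \ A).card := by
        calc ∑ j ∈ S, (p' j - (d' j - t)) ≤ ∑ j ∈ S, ((p j - (d j - t)) + (if j ∈ Q \ A then 1 else 0)) :=
              Finset.sum_le_sum hterm
          _ = ∑ j ∈ S, (p j - (d j - t)) + (Q \ A).card := by
              rw [Finset.sum_add_distrib]
              congr 1
              rw [Finset.sum_ite_mem, Finset.card_eq_sum_ones]
              congr 1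
              exact Finset.inter_eq_right.mpr ((Finset.sdiff_subset).trans (Finset.filter_subset _ _))
      rcases Finset.eq_empty_or_nonempty (Q \ A) with he | ⟨b, hb⟩
      · rw [he] at hsum
        simp only [Finset.card_empty, add_zero] at hsum
        exact hsum.trans (hc t (by omega))
      · -- `A` has exactly `m` elements and is contained in `Q`
        have hbQ := (Finset.mem_filter.mp (Finset.mem_sdiff.mp hb).1)
        have hbA := (Finset.mem_sdiff.mp hb).2
        have hbE : b ∈ E := Finset.mem_filter.mpr ⟨hbQ.1, hbQ.2.1, by have := hbQ.2.2; omega⟩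
        have hAQ : A ⊆ Q := by
          intro a ha
          refine Finset.mem_filter.mpr ⟨hAS ha, (hAd a ha).1, ?_⟩
          exact hbQ.2.2.trans (hA a ha b (Finset.mem_sdiff.mpr ⟨hbE, hbA⟩))
        have hAm : A.card = m := by
          by_contra hne
          have : A.card = E.card := by omega
          have hAE' : A = E := Finset.eq_of_subset_of_card_le hAE this.ge
          exact hbA (hAE' ▸ hbE)
        have hQc : Q.card = m + (Q \ A).card := by
          rw [Finset.card_sdiff_of_subset hAQ, hAm]
          have := Finset.card_le_card hAQ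
          omega
        -- compare `t` and `t+1`
        have hinc : ∑ j ∈ S, (p j - (d j - t)) + Q.card ≤ ∑ j ∈ S, (p j - (d j - (t+1))) := by
          have : Q.card = ∑ j ∈ S, (if j ∈ Q then 1 else 0) := by
            rw [Finset.sum_ite_mem, Finset.card_eq_sum_ones,
              Finset.inter_eq_right.mpr (Finset.filter_subset _ _)]
          rw [this, ← Finset.sum_add_distrib]
          apply Finset.sum_le_sum
          intro j hj
          by_cases hjQ : j ∈ Q
          · rw [if_pos hjQ]
            have := (Finset.mem_filter.mp hjQ).2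
            rw [this.1]; omega
          · rw [if_neg hjQ]; omega
        have h1 := hc (t+1) (by omega)
        have : m * (t+1) = m * t + m := by ring
        omega
    obtain ⟨A', h1, h2, h3, h4, h5⟩ := ih S p' d' (fun j _ => min_le_right _ _) hcond
    refine ⟨fun s => if s = D then A else A' s, ?_, ?_, ?_, ?_, ?_⟩
    · intro s; dsimp only; split_ifs
      · exact hAS
      · exact h1 s
    · intro s; dsimp only; split_ifs
      · rw [hAc]; exact min_le_left _ _
      · exact h2 s
    · intro s hs; dsimp only; rw [if_neg (by omega)]; exact h3 s (by omega)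
    · intro s j hj
      dsimp only at hj
      split_ifs at hj with hs
      · have := hAd j hj; omega
      · have := h4 s j hj
        exact lt_of_lt_of_le this (min_le_left _ _)
    · intro j hj
      rw [Finset.range_add_one, Finset.filter_insert]
      have hfilt : (range D).filter (fun s => j ∈ (if s = D then A else A' s)) =
          (range D).filter (fun s => j ∈ A' s) := by
        apply Finset.filter_congr
        intro s hs
        rw [if_neg (by have := Finset.mem_range.mp hs; omega)]
      rw [hfilt]
      have h5' := h5 j hj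
      simp only [if_true]
      by_cases hjA : j ∈ A
      · rw [if_pos hjA, Finset.card_insert_of_notMem (by simp), h5']
        simp only [p', hjA, if_true]
        have := hAd j hjA; omega
      · rw [if_neg hjA, h5']
        simp only [p', hjA, if_false]

/-- It suffices to check the mandatory-work condition at time `0` and at the deadlines. -/
theorem cond_of_breakpoints (m : ℕ) (S : Finset ι) (p d : ι → ℕ)
    (h0 : ∑ j ∈ S, (p j - d j) = 0)
    (hd : ∀ i ∈ S, ∑ j ∈ S, (p j - (d j - d i)) ≤ m * d i) :
    ∀ t, ∑ j ∈ S, (p j - (d j - t)) ≤ m * t := by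
  by_contra hcon
  push Not at hcon
  -- minimal violating time
  classical
  set t := Nat.find hcon with ht
  have htv : m * t < ∑ j ∈ S, (p j - (d j - t)) := Nat.find_spec hcon
  have hmin : ∀ s < t, ∑ j ∈ S, (p j - (d j - s)) ≤ m * s := fun s hs => by
    have := Nat.find_min hcon hs; omega
  have ht0 : t ≠ 0 := by
    intro h0'
    rw [h0'] at htv
    simp only [mul_zero, tsub_zero] at htv
    omega
  let inc : ℕ → ℕ := fun s => (S.filter (fun j => s < d j ∧ d j ≤ s + p j)).card
  have hinc : ∀ s, ∑ j ∈ S, (p j - (d j - (s+1))) = ∑ j ∈ S, (p j - (d j - s)) + inc s := by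
    intro s
    simp only [inc]
    rw [Finset.card_eq_sum_ones, Finset.sum_filter, ← Finset.sum_add_distrib]
    apply Finset.sum_congr rfl
    intro j _
    split_ifs with h <;> omega
  have hmono : ∀ s, (∀ j ∈ S, d j ≠ s + 1) → inc s ≤ inc (s+1) := by
    intro s hs
    apply Finset.card_le_card
    intro j hj
    rw [Finset.mem_filter] at hj ⊢
    have := hs j hj.1
    refine ⟨hj.1, ?_, ?_⟩ <;> omega
  have hne : ∀ s, m * s < ∑ j ∈ S, (p j - (d j - s)) → ∀ j ∈ S, d j ≠ s := by
    intro s hs j hj hjs
    have := hd j hj
    rw [hjs] at this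
    omega
  have hall : ∀ k, m * (t + k) < ∑ j ∈ S, (p j - (d j - (t+k))) ∧ m + 1 ≤ inc (t+k) := by
    intro k
    induction k with
    | zero =>
      refine ⟨htv, ?_⟩
      obtain ⟨u, hu⟩ : ∃ u, t = u + 1 := ⟨t - 1, by omega⟩
      have h1 := hmin u (by omega)
      have h2 := hinc u
      rw [← hu] at h2
      have h3 : m + 1 ≤ inc u := by
        have h5 : m * t = m * u + m := by rw [hu]; ring
        omega
      have h4 := hmono u (by rw [← hu]; exact hne t htv)
      rw [← hu] at h4
      rw [add_zero]; omega
    | succ k ih =>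
      obtain ⟨h1, h2⟩ := ih
      have h3 := hinc (t+k)
      have h4 : m * (t + (k+1)) = m * (t+k) + m := by ring
      have h5 : m * (t + (k+1)) < ∑ j ∈ S, (p j - (d j - (t+(k+1)))) := by
        rw [← add_assoc, h3]; rw [← add_assoc] at h4; omega
      refine ⟨h5, ?_⟩
      have := hmono (t+k) (by rw [add_assoc]; exact hne _ h5)
      rw [add_assoc] at this
      omega
  obtain ⟨_, h2⟩ := hall (S.sup d)
  have : inc (t + S.sup d) = 0 := by
    simp only [inc, Finset.card_eq_zero]
    apply Finset.filter_eq_empty_iff.mpr
    intro j hj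
    have := Finset.le_sup (f := d) hj
    omega
  omega

end Pool.Agent.Lib.MP_1f44d9_lc
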