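import Pool.Agent.Lib.MP_1f44d9_lc.Defs
import Pool.Agent.Lib.MP_1f44d9_lc.Horn

namespace Pool.Agent.Lib.MP_1f44d9_lc

open MeasureTheory

variable {I : Inst}

namespace Schedule

variable (σ : Schedule I)

lemma run_finite (j : Fin I.n) : volume {t | ∃ i, σ.on i t = some j} ≠ ⊤ := by
  rw [σ.processed]; exact ENNReal.natCast_ne_top _

lemma work_finite (j : Fin I.n) (t : ℝ) : volume {s | s ≤ t ∧ ∃ i, σ.on i s = some j} ≠ ⊤ := by
  refine ne_top_of_le_ne_top (σ.run_finite j) (measure_mono ?_)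
  rintro s ⟨_, hs⟩
  exact hs

lemma work_mono (j : Fin I.n) {s t : ℝ} (h : s ≤ t) : σ.work j s ≤ σ.work j t := by
  unfold work
  apply ENNReal.toReal_mono (σ.work_finite j t)
  apply measure_mono
  rintro x ⟨h1, h2⟩
  exact ⟨h1.trans h, h2⟩

lemma work_lip (j : Fin I.n) {s t : ℝ} (h : s ≤ t) : σ.work j t ≤ σ.work j s + (t - s) := by
  unfold work
  have hfin : volume (Set.Icc s t) ≠ ⊤ := by rw [Real.volume_Icc]; exact ENNReal.ofReal_ne_top
  have : volume {x | x ≤ t ∧ ∃ i, σ.on i x = some j} ≤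
      volume {x | x ≤ s ∧ ∃ i, σ.on i x = some j} + volume (Set.Icc s t) := by
    refine le_trans (measure_mono ?_) (measure_union_le _ _)
    rintro x ⟨h1, h2⟩
    rcases le_total x s with h3 | h3
    · exact Or.inl ⟨h3, h2⟩
    · exact Or.inr ⟨h3, h1⟩
  have h3 := ENNReal.toReal_mono (ENNReal.add_ne_top.mpr ⟨σ.work_finite j s, hfin⟩) this
  rw [ENNReal.toReal_add (σ.work_finite j s) hfin, Real.volume_Icc,
    ENNReal.toReal_ofReal (by linarith)] at h3
  exact h3

lemma work_horizon (j : Fin I.n) : ∃ T : ℝ, 0 ≤ T ∧ (I.p j : ℝ) ≤ σ.work j T := by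
  obtain ⟨T, hT⟩ := σ.idle_after
  refine ⟨max T 0, le_max_right _ _, ?_⟩
  unfold work
  have : {s | s ≤ max T 0 ∧ ∃ i, σ.on i s = some j} = {s | ∃ i, σ.on i s = some j} := by
    ext s
    constructor
    · rintro ⟨_, h⟩; exact h
    · rintro ⟨i, h⟩
      refine ⟨?_, i, h⟩
      by_contra hlt
      push Not at hlt
      have := hT i s (lt_of_le_of_lt (le_max_left _ _) hlt)
      rw [this] at h
      exact absurd h (by simp)
  rw [this, σ.processed]
  simp

lemma completion_le_iff (j : Fin I.n) {x : ℝ} (hx : 0 ≤ x) :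
    σ.completion j ≤ x ↔ (I.p j : ℝ) ≤ σ.work j x := by
  have hbdd : BddBelow {t | 0 ≤ t ∧ (I.p j : ℝ) ≤ σ.work j t} := ⟨0, fun t ht => ht.1⟩
  constructor
  · intro h
    by_contra hlt
    push Not at hlt
    set ε := (I.p j : ℝ) - σ.work j x with hε
    have hεpos : 0 < ε := by simp only [hε]; linarith
    obtain ⟨t, ht, htlt⟩ := Real.lt_sInf_add_pos (s := {t | 0 ≤ t ∧ (I.p j : ℝ) ≤ σ.work j t})
      (by obtain ⟨T, h1, h2⟩ := σ.work_horizon j; exact ⟨T, h1, h2⟩) hεpos
    have h1 : t < x + ε := by unfold completion at h; linarith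
    rcases le_total t x with h2 | h2
    · have := σ.work_mono j h2
      have := ht.2
      linarith
    · have := σ.work_lip j h2
      have := ht.2
      linarith
  · intro h
    exact csInf_le hbdd ⟨hx, h⟩

lemma work_nonneg (j : Fin I.n) (t : ℝ) : 0 ≤ σ.work j t := ENNReal.toReal_nonneg

lemma mand_le_work (j : Fin I.n) (hj : σ.completion j ≤ I.d j) (t : ℕ) :
    (mand I j t : ℝ) ≤ σ.work j t := by
  have h1 := (σ.completion_le_iff j (Nat.cast_nonneg _)).mp hj
  unfold mand
  rcases le_total (I.d j) t with h | h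
  · rw [Nat.sub_eq_zero_of_le h, Nat.sub_zero]
    exact h1.trans (σ.work_mono j (by exact_mod_cast h))
  · have h2 := σ.work_lip j (s := (t : ℝ)) (t := (I.d j : ℝ)) (by exact_mod_cast h)
    rcases le_total (I.d j - t) (I.p j) with h3 | h3
    · rw [Nat.cast_sub h3, Nat.cast_sub h]; linarith
    · rw [Nat.sub_eq_zero_of_le h3, Nat.cast_zero]
      exact σ.work_nonneg j t

lemma sum_work_le (S : Finset (Fin I.n)) {t : ℝ} (ht : 0 ≤ t) :
    ∑ j ∈ S, σ.work j t ≤ I.m * t := by
  have key : ∑ j ∈ S, volume {s | s ≤ t ∧ ∃ i, σ.on i s = some j} ≤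
      (I.m : ENNReal) * ENNReal.ofReal t := by
    calc ∑ j ∈ S, volume {s | s ≤ t ∧ ∃ i, σ.on i s = some j}
        ≤ ∑ j ∈ S, ∑ i, volume ({s | σ.on i s = some j} ∩ Set.Icc 0 t) := by
          apply Finset.sum_le_sum
          intro j _
          have : {s | s ≤ t ∧ ∃ i, σ.on i s = some j} ⊆
              ⋃ i ∈ (Finset.univ : Finset (Fin I.m)), ({s | σ.on i s = some j} ∩ Set.Icc 0 t) := by
            rintro s ⟨h1, i, h2⟩
            simp only [Finset.mem_univ, Set.iUnion_true, Set.mem_iUnion]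
            refine ⟨i, h2, ?_, h1⟩
            by_contra hneg
            push Not at hneg
            rw [σ.idle_before i s hneg] at h2
            exact absurd h2 (by simp)
          exact (measure_mono this).trans (measure_biUnion_finset_le _ _)
      _ = ∑ i, ∑ j ∈ S, volume ({s | σ.on i s = some j} ∩ Set.Icc 0 t) := Finset.sum_comm
      _ ≤ ∑ _i : Fin I.m, ENNReal.ofReal t := by
          apply Finset.sum_le_sum
          intro i _
          rw [← measure_biUnion_finset]
          · calc volume (⋃ j ∈ S, ({s | σ.on i s = some j} ∩ Set.Icc 0 t))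
                ≤ volume (Set.Icc 0 t) := by
                  apply measure_mono
                  intro s hs
                  simp only [Set.mem_iUnion] at hs
                  obtain ⟨j, _, hs⟩ := hs
                  exact hs.2
              _ = ENNReal.ofReal t := by rw [Real.volume_Icc, sub_zero]
          · intro a _ b _ hab
            rw [Function.onFun, Set.disjoint_left]
            rintro s ⟨h1, _⟩ ⟨h2, _⟩
            have h1' : σ.on i s = some a := h1
            have h2' : σ.on i s = some b := h2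
            rw [h1'] at h2'
            exact hab (Option.some.inj h2')
          · intro j _
            exact (σ.measurable_on i j).inter measurableSet_Icc
      _ = (I.m : ENNReal) * ENNReal.ofReal t := by simp
  have h2 : (∑ j ∈ S, volume {s | s ≤ t ∧ ∃ i, σ.on i s = some j}).toReal = ∑ j ∈ S, σ.work j t := by
    rw [ENNReal.toReal_sum (fun j _ => σ.work_finite j t)]
    rfl
  rw [← h2]
  have h3 := ENNReal.toReal_mono (by exact ENNReal.mul_ne_top (by simp) ENNReal.ofReal_ne_top) key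
  rwa [ENNReal.toReal_mul, ENNReal.toReal_ofReal ht, ENNReal.toReal_natCast] at h3

/-- Necessity of the mandatory-work condition, for arbitrary preemptive schedules. -/
theorem necessary (S : Finset (Fin I.n)) (hS : ∀ j ∈ S, σ.completion j ≤ I.d j) (t : ℕ) :
    ∑ j ∈ S, mand I j t ≤ I.m * t := by
  have h1 : (∑ j ∈ S, (mand I j t : ℝ)) ≤ ∑ j ∈ S, σ.work j t :=
    Finset.sum_le_sum (fun j hj => σ.mand_le_work j (hS j hj) t)
  have h2 := h1.trans (σ.sum_work_le S (Nat.cast_nonneg t))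
  exact_mod_cast h2

end Schedule

/-! ### From unit slots to schedules -/

lemma measurable_floor_set (P : ℕ → Prop) : MeasurableSet {t : ℝ | 0 ≤ t ∧ P ⌊t⌋₊} := by
  have : {t : ℝ | 0 ≤ t ∧ P ⌊t⌋₊} = Set.Ici 0 ∩ (fun t : ℝ => ⌊t⌋₊) ⁻¹' {k | P k} := by
    ext t; simp
  rw [this]
  exact measurableSet_Ici.inter (Nat.measurable_floor (MeasurableSpace.measurableSet_top))

lemma volume_floor_set (F : Finset ℕ) : volume {t : ℝ | 0 ≤ t ∧ ⌊t⌋₊ ∈ F} = (F.card : ENNReal) := by
  have : {t : ℝ | 0 ≤ t ∧ ⌊t⌋₊ ∈ F} = ⋃ s ∈ F, Set.Ico (s : ℝ) (s + 1) := by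
    ext t
    simp only [Set.mem_ofPred_eq, Set.mem_iUnion, Set.mem_Ico, exists_prop]
    constructor
    · rintro ⟨h1, h2⟩
      exact ⟨_, h2, Nat.floor_le h1, Nat.lt_floor_add_one t⟩
    · rintro ⟨s, hs, h1, h2⟩
      have h0 : 0 ≤ t := le_trans (Nat.cast_nonneg s) h1
      refine ⟨h0, ?_⟩
      have : ⌊t⌋₊ = s := (Nat.floor_eq_iff h0).mpr ⟨h1, h2⟩
      rwa [this]
  rw [this, measure_biUnion_finset]
  · simp
  · intro a _ b _ hab
    rw [Function.onFun, Set.disjoint_left]
    rintro t ⟨h1, h2⟩ ⟨h3, h4⟩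
    apply hab
    have h0 : 0 ≤ t := le_trans (Nat.cast_nonneg a) h1
    rw [← (Nat.floor_eq_iff h0).mpr ⟨h1, h2⟩, ← (Nat.floor_eq_iff h0).mpr ⟨h3, h4⟩]
  · intro s _
    exact measurableSet_Ico

section slots

variable (I)

/-- The `i`-th element of a finite set of jobs, if it exists. -/
def pick (B : Finset (Fin I.n)) (i : ℕ) : Option (Fin I.n) :=
  if h : i < B.card then some (B.orderEmbOfFin rfl ⟨i, h⟩) else none

lemma pick_eq_some {B : Finset (Fin I.n)} {i : ℕ} {j : Fin I.n} :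
    pick I B i = some j ↔ ∃ h : i < B.card, B.orderEmbOfFin rfl ⟨i, h⟩ = j := by
  unfold pick
  by_cases h : i < B.card
  · rw [dif_pos h]
    exact ⟨fun h' => ⟨h, Option.some.inj h'⟩, fun ⟨_, h'⟩ => congrArg some h'⟩
  · rw [dif_neg h]
    exact ⟨fun h' => absurd h' (by simp), fun ⟨h', _⟩ => absurd h' h⟩

/-- The schedule given by an assignment of sets of jobs to unit time slots. -/
noncomputable def slotOn (A : ℕ → Finset (Fin I.n)) (i : Fin I.m) (t : ℝ) : Option (Fin I.n) :=
  if 0 ≤ t then pick I (A ⌊t⌋₊) i else none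

lemma slotOn_eq_some {A : ℕ → Finset (Fin I.n)} {i : Fin I.m} {t : ℝ} {j : Fin I.n} :
    slotOn I A i t = some j ↔ 0 ≤ t ∧ pick I (A ⌊t⌋₊) i = some j := by
  unfold slotOn
  by_cases h0 : 0 ≤ t
  · rw [if_pos h0]; exact ⟨fun h => ⟨h0, h⟩, fun h => h.2⟩
  · rw [if_neg h0]; exact ⟨fun h => absurd h (by simp), fun h => absurd h.1 h0⟩

lemma exists_slotOn {A : ℕ → Finset (Fin I.n)} (hA : ∀ s, (A s).card ≤ I.m) {t : ℝ}
    {j : Fin I.n} : (∃ i, slotOn I A i t = some j) ↔ 0 ≤ t ∧ j ∈ A ⌊t⌋₊ := by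
  constructor
  · rintro ⟨i, h⟩
    obtain ⟨h0, h1⟩ := (slotOn_eq_some I).mp h
    obtain ⟨_, h2⟩ := (pick_eq_some I).mp h1
    refine ⟨h0, ?_⟩
    rw [← h2]
    exact Finset.orderEmbOfFin_mem _ _ _
  · rintro ⟨h0, hj⟩
    have : j ∈ Set.range ((A ⌊t⌋₊).orderEmbOfFin rfl) := by
      rw [Finset.range_orderEmbOfFin]; exact hj
    obtain ⟨k, hk⟩ := this
    refine ⟨⟨k, lt_of_lt_of_le k.2 (hA _)⟩, ?_⟩
    rw [slotOn_eq_some]
    exact ⟨h0, (pick_eq_some I).mpr ⟨k.2, hk⟩⟩

/-- The schedule of a slot assignment. -/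
noncomputable def slotSchedule (A : ℕ → Finset (Fin I.n)) (D : ℕ) (hA : ∀ s, (A s).card ≤ I.m)
    (hD : ∀ s, D ≤ s → A s = ∅)
    (hp : ∀ j, ((Finset.range D).filter (fun s => j ∈ A s)).card = I.p j) : Schedule I where
  on := slotOn I A
  measurable_on := by
    intro i j
    have : {t | slotOn I A i t = some j} =
        {t : ℝ | 0 ≤ t ∧ pick I (A ⌊t⌋₊) i = some j} := by
      ext t
      exact slotOn_eq_some I
    rw [this]
    exact measurable_floor_set (fun k => pick I (A k) i = some j)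
  idle_before := by
    intro i t ht
    unfold slotOn
    rw [if_neg (by linarith)]
  idle_after := by
    refine ⟨D, fun i t ht => ?_⟩
    have h0 : (0 : ℝ) ≤ t := le_trans (Nat.cast_nonneg D) ht.le
    have h1 : D ≤ ⌊t⌋₊ := Nat.le_floor ht.le
    unfold slotOn pick
    rw [if_pos h0, dif_neg]
    rw [hD _ h1]; simp
  no_parallel := by
    intro t i i' j h h'
    obtain ⟨h1, h2⟩ := (pick_eq_some I).mp ((slotOn_eq_some I).mp h).2
    obtain ⟨h1', h2'⟩ := (pick_eq_some I).mp ((slotOn_eq_some I).mp h').2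
    rw [← h2'] at h2
    have := ((A ⌊t⌋₊).orderEmbOfFin rfl).injective h2
    exact Fin.ext (by simpa using this)
  processed := by
    intro j
    rw [← hp j, ← volume_floor_set]
    congr 1
    ext t
    simp only [Set.mem_ofPred_eq, exists_slotOn I hA, Finset.mem_filter, Finset.mem_range]
    constructor
    · rintro ⟨h0, h1⟩
      refine ⟨h0, ?_, h1⟩
      by_contra hlt
      push Not at hlt
      rw [hD _ hlt] at h1
      exact absurd h1 (by simp)
    · rintro ⟨h0, _, h1⟩
      exact ⟨h0, h1⟩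

lemma slotSchedule_integral (A : ℕ → Finset (Fin I.n)) (D : ℕ) (hA : ∀ s, (A s).card ≤ I.m)
    (hD : ∀ s, D ≤ s → A s = ∅)
    (hp : ∀ j, ((Finset.range D).filter (fun s => j ∈ A s)).card = I.p j) :
    (slotSchedule I A D hA hD hp).Integral := by
  intro i t ht
  show slotOn I A i t = slotOn I A i (⌊t⌋₊ : ℝ)
  unfold slotOn
  rw [if_pos ht, if_pos (Nat.cast_nonneg _), Nat.floor_natCast]

lemma slotSchedule_completion (A : ℕ → Finset (Fin I.n)) (D : ℕ) (hA : ∀ s, (A s).card ≤ I.m)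
    (hD : ∀ s, D ≤ s → A s = ∅)
    (hp : ∀ j, ((Finset.range D).filter (fun s => j ∈ A s)).card = I.p j)
    (j : Fin I.n) (hj : ∀ s, j ∈ A s → s < I.d j) :
    (slotSchedule I A D hA hD hp).completion j ≤ I.d j := by
  rw [Schedule.completion_le_iff _ _ (Nat.cast_nonneg _)]
  unfold Schedule.work
  have : {s : ℝ | s ≤ (I.d j : ℝ) ∧ ∃ i, (slotSchedule I A D hA hD hp).on i s = some j} =
      {s : ℝ | ∃ i, (slotSchedule I A D hA hD hp).on i s = some j} := by
    ext s
    constructor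
    · rintro ⟨_, h⟩; exact h
    · intro h
      refine ⟨?_, h⟩
      obtain ⟨h0, h1⟩ := (exists_slotOn I hA).mp h
      have h2 := hj _ h1
      have h3 : s < (⌊s⌋₊ : ℝ) + 1 := Nat.lt_floor_add_one s
      have h4 : ((⌊s⌋₊ : ℝ) + 1) ≤ I.d j := by exact_mod_cast h2
      linarith
  rw [this, Schedule.processed]
  simp

end slots

end Pool.Agent.Lib.MP_1f44d9_lc
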