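import Pool.Agent.Lib.MP_1f44d9_lc.Rank
import Pool.Agent.Lib.MP_1f44d9_lc.Sched

namespace Pool.Agent.Lib.MP_1f44d9_lc

open Finset

variable (I : Inst)

lemma sum_trunc_le {ι : Type*} (T : Finset ι) (p : ι → ℕ) (y : ℕ) :
    ∑ j ∈ T, (p j - y) ≤ (∑ j ∈ T, p j) - y := by
  classical
  induction T using Finset.induction_on with
  | empty => simp
  | insert a s ha ih =>
    rw [Finset.sum_insert ha, Finset.sum_insert ha]
    omega

/-- Sufficiency of the mandatory-work condition: an integral schedule in which all jobs of `S`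
are on time. -/
theorem sufficient (S : Finset (Fin I.n)) (hS : ∀ t, ∑ j ∈ S, mand I j t ≤ I.m * t) :
    ∃ σ : Schedule I, σ.Integral ∧ ∀ j ∈ S, σ.completion j ≤ I.d j := by
  classical
  set D0 : ℕ := ∑ j, I.d j with hD0
  set P : ℕ := ∑ j, I.p j with hP
  have hdD : ∀ j, I.d j ≤ D0 := fun j => Finset.single_le_sum (f := I.d) (fun _ _ => Nat.zero_le _)
    (Finset.mem_univ j)
  let d' : Fin I.n → ℕ := fun j => if j ∈ S then I.d j else D0 + P
  have hd' : ∀ j ∈ (Finset.univ : Finset (Fin I.n)), d' j ≤ D0 + P := by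
    intro j _
    simp only [d']
    split_ifs
    · have := hdD j; omega
    · exact le_rfl
  have hcond : ∀ t ≤ D0 + P, ∑ j ∈ (Finset.univ : Finset (Fin I.n)), (I.p j - (d' j - t)) ≤ I.m * t := by
    intro t ht
    have hsplit : ∑ j ∈ (Finset.univ : Finset (Fin I.n)), (I.p j - (d' j - t)) =
        ∑ j ∈ S, mand I j t + ∑ j ∈ Sᶜ, (I.p j - (D0 + P - t)) := by
      rw [← Finset.sum_add_sum_compl S]
      congr 1
      · apply Finset.sum_congr rfl
        intro j hj
        simp only [d', hj, if_true, mand]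
      · apply Finset.sum_congr rfl
        intro j hj
        rw [Finset.mem_compl] at hj
        simp only [d', hj, if_false]
    rw [hsplit]
    have h1 := sum_trunc_le Sᶜ I.p (D0 + P - t)
    have h2 : ∑ j ∈ Sᶜ, I.p j ≤ P := Finset.sum_le_sum_of_subset (Finset.subset_univ _)
    rcases le_total t D0 with h | h
    · have h3 := hS t
      omega
    · have h3 : ∑ j ∈ S, mand I j t ≤ I.m * D0 := by
        refine le_trans (Finset.sum_le_sum ?_) (hS D0)
        intro j _
        have := hdD j
        unfold mand; omega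
      have h4 : I.m * t = I.m * D0 + I.m * (t - D0) := by
        rw [← Nat.mul_add]; congr 1; omega
      have h5 : t - D0 ≤ I.m * (t - D0) := Nat.le_mul_of_pos_left _ I.hm
      omega
  obtain ⟨A, _, h2, h3, h4, h5⟩ := slots_exist I.m (D0 + P) Finset.univ I.p d' hd' hcond
  refine ⟨slotSchedule I A (D0 + P) h2 h3 (fun j => h5 j (Finset.mem_univ j)),
    slotSchedule_integral I A _ h2 h3 _, ?_⟩
  intro j hj
  apply slotSchedule_completion
  intro s hs
  have := h4 s j hs
  simpa only [d', hj, if_true] using this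

/-- The scheduling side in terms of the mandatory-work condition. -/
theorem schedule_iff (v : ℕ) :
    (∃ σ : Schedule I, σ.cost ≤ v) ↔
      ∃ S : Finset (Fin I.n), (∀ t, ∑ j ∈ S, mand I j t ≤ I.m * t) ∧ ∑ j ∈ Sᶜ, I.w j ≤ v := by
  classical
  constructor
  · rintro ⟨σ, hσ⟩
    refine ⟨Finset.univ.filter (fun j => σ.completion j ≤ I.d j), ?_, ?_⟩
    · intro t
      exact σ.necessary _ (fun j hj => (Finset.mem_filter.mp hj).2) t
    · refine le_trans (le_of_eq ?_) hσ
      unfold Schedule.cost
      apply Finset.sum_congr _ (fun _ _ => rfl)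
      ext j; simp
  · rintro ⟨S, h1, h2⟩
    obtain ⟨σ, _, hσ⟩ := sufficient I S h1
    refine ⟨σ, le_trans ?_ h2⟩
    unfold Schedule.cost
    apply Finset.sum_le_sum_of_subset
    intro j hj
    rw [Finset.mem_filter] at hj
    rw [Finset.mem_compl]
    intro hjS
    have := hσ j hjS
    linarith [hj.2]

theorem integral_schedule_iff (v : ℕ) :
    (∃ σ : Schedule I, σ.Integral ∧ σ.cost ≤ v) ↔
      ∃ S : Finset (Fin I.n), (∀ t, ∑ j ∈ S, mand I j t ≤ I.m * t) ∧ ∑ j ∈ Sᶜ, I.w j ≤ v := by
  classical
  constructor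
  · rintro ⟨σ, _, hσ⟩
    exact (schedule_iff I v).mp ⟨σ, hσ⟩
  · rintro ⟨S, h1, h2⟩
    obtain ⟨σ, hint, hσ⟩ := sufficient I S h1
    refine ⟨σ, hint, le_trans ?_ h2⟩
    unfold Schedule.cost
    apply Finset.sum_le_sum_of_subset
    intro j hj
    rw [Finset.mem_filter] at hj
    rw [Finset.mem_compl]
    intro hjS
    have := hσ j hjS
    linarith [hj.2]

/-- The inequalities of the program, spelled out. -/
theorem feasible_iff (v : ℕ) : (milp I v).Feasible ↔
    ∃ (x : Cls I → ℤ) (y : Cls I × Tm I → ℝ),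
      (∀ c, 0 ≤ x c) ∧ (∀ c, x c ≤ cnt I c) ∧
      (∀ τ, ∑ c, y (c, τ) ≤ (I.m : ℝ) * (tm I τ : ℝ)) ∧
      (∀ j τ, (mand I j (tm I τ) : ℝ) * x (cls I j) - y (cls I j, τ) ≤
        (rk I j : ℝ) * (mand I j (tm I τ) : ℝ) -
          ∑ j' ∈ Finset.univ.filter (fun j' => Before I j' j), (mand I j' (tm I τ) : ℝ)) ∧
      (∑ j, (I.w j : ℤ) - v ≤ ∑ c : Cls I, (c.1.2 : ℤ) * x c) := by
  unfold MILP.Feasible
  refine exists_congr fun x => exists_congr fun y => ?_
  simp only [Con, Sum.forall, Prod.forall, milp]
  refine and_congr ?_ (and_congr ?_ (and_congr ?_ (and_congr ?_ ?_)))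
  · refine forall_congr' fun c => ?_
    simp
  · refine forall_congr' fun c => ?_
    simp only [Int.cast_ite, Int.cast_one, Int.cast_zero, ite_mul, one_mul, zero_mul,
      Finset.sum_ite_eq', Finset.mem_univ, if_true, Finset.sum_const_zero, add_zero,
      Int.cast_natCast]
    constructor
    · intro h; exact_mod_cast h
    · intro h; exact_mod_cast h
  · refine forall_congr' fun τ => ?_
    have : ∑ k : Cls I × Tm I, (((if k.2 = τ then 1 else 0 : ℤ)) : ℝ) * y k = ∑ c, y (c, τ) := by
      rw [Fintype.sum_prod_type]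
      apply Finset.sum_congr rfl
      intro c _
      simp
    rw [this]
    simp
  · refine forall_congr' fun j => forall_congr' fun τ => ?_
    have h1 : ∑ i : Cls I, (((if i = cls I j then (mand I j (tm I τ) : ℤ) else 0 : ℤ)) : ℝ) * (x i : ℝ) =
        (mand I j (tm I τ) : ℝ) * x (cls I j) := by
      simp
    have h2 : ∑ k : Cls I × Tm I, (((if k = (cls I j, τ) then -1 else 0 : ℤ)) : ℝ) * y k =
        - y (cls I j, τ) := by
      simp
    rw [h1, h2]
    push_cast
    rw [← sub_eq_add_neg]
  · simp only [Int.cast_neg, Int.cast_natCast, neg_mul, Finset.sum_neg_distrib, Int.cast_zero,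
      zero_mul, Finset.sum_const_zero, add_zero]
    constructor
    · intro h
      have := h ()
      have h2 : ((∑ j, (I.w j : ℤ) - v : ℤ) : ℝ) ≤ ((∑ c : Cls I, (c.1.2 : ℤ) * x c : ℤ) : ℝ) := by
        push_cast at this ⊢
        linarith
      exact_mod_cast h2
    · intro h _
      have h2 : ((∑ j, (I.w j : ℤ) - v : ℤ) : ℝ) ≤ ((∑ c : Cls I, (c.1.2 : ℤ) * x c : ℤ) : ℝ) := by
        exact_mod_cast h
      push_cast at h2 ⊢
      linarith

/-- The program is feasible if and only if there is a suitable set of on-time jobs. -/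
theorem milp_iff (v : ℕ) : (milp I v).Feasible ↔
    ∃ S : Finset (Fin I.n), (∀ t, ∑ j ∈ S, mand I j t ≤ I.m * t) ∧ ∑ j ∈ Sᶜ, I.w j ≤ v := by
  classical
  rw [feasible_iff]
  constructor
  · rintro ⟨x, y, h0, hc, hcap, hsup, hobj⟩
    let k : Cls I → ℕ := fun c => (x c).toNat
    have hk : ∀ c, ((k c : ℕ) : ℤ) = x c := fun c => Int.toNat_of_nonneg (h0 c)
    have hkc : ∀ c, k c ≤ cnt I c := fun c => by have := hk c; have := hc c; omega
    let S : Finset (Fin I.n) := Finset.univ.filter (fun j => rk I j < k (cls I j))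
    have hfib : ∀ c, S.filter (fun j => cls I j = c) = top I c (k c) := by
      intro c
      ext j
      simp only [S, top, Finset.mem_filter, Finset.mem_univ, true_and]
      constructor
      · rintro ⟨h1, h2⟩; rw [h2] at h1; exact ⟨h2, h1⟩
      · rintro ⟨h1, h2⟩; rw [h1]; exact ⟨h2, rfl⟩
    -- `V c τ (k c) ≤ y (c, τ)`
    have hV : ∀ c τ, (∑ j ∈ top I c (k c), (mand I j (tm I τ) : ℝ)) ≤ y (c, τ) := by
      intro c τ
      -- the job of class `c` with rank `k c - 1` (or rank `0`)
      have hne : (jobs I c).Nonempty := by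
        obtain ⟨j, _, hj⟩ := Finset.mem_image.mp c.2
        exact ⟨j, Finset.mem_filter.mpr ⟨Finset.mem_univ _, Subtype.ext hj⟩⟩
      have hcnt : 0 < cnt I c := Finset.card_pos.mpr hne
      have hr : k c - 1 ∈ (jobs I c).image (rk I) := by
        rw [image_rk, Finset.mem_range]; have := hkc c; omega
      obtain ⟨j, hj, hjr⟩ := Finset.mem_image.mp hr
      have hjc : cls I j = c := (Finset.mem_filter.mp hj).2
      have h1 := hsup j τ
      rw [before_filter_eq, hjc] at h1
      have hx : (x c : ℝ) = (k c : ℝ) := by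
        have := hk c
        exact_mod_cast this.symm
      rw [hx] at h1
      rcases Nat.eq_zero_or_pos (k c) with hz | hpos
      · rw [hz] at hjr
        have hz' : rk I j = 0 := by omega
        have e : top I c 0 = ∅ := by
          unfold top; apply Finset.filter_eq_empty_iff.mpr; intro a _; omega
        rw [hz', hz, e] at h1
        rw [hz, e]
        simp only [Finset.sum_empty, Nat.cast_zero, mul_zero, zero_mul, sub_zero] at h1 ⊢
        linarith
      · have hins : top I c (k c) = insert j (top I c (rk I j)) := by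
          ext a
          simp only [top, Finset.mem_insert, Finset.mem_filter, Finset.mem_univ, true_and]
          constructor
          · rintro ⟨h2, h3⟩
            rcases Nat.lt_or_ge (rk I a) (rk I j) with h4 | h4
            · right; exact ⟨h2, h4⟩
            · left; exact rk_inj I (h2.trans hjc.symm) (by omega)
          · rintro (h2 | ⟨h2, h3⟩)
            · subst h2; exact ⟨hjc, by omega⟩
            · exact ⟨h2, by omega⟩
        have hnot : j ∉ top I c (rk I j) := by
          simp only [top, Finset.mem_filter, lt_self_iff_false, and_false, not_false_eq_true]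
        rw [hins, Finset.sum_insert hnot]
        have hkr : (k c : ℝ) = (rk I j : ℝ) + 1 := by
          have : k c = rk I j + 1 := by omega
          exact_mod_cast this
        rw [hkr] at h1
        linarith
    have hsum : ∀ τ, ∑ j ∈ S, mand I j (tm I τ) ≤ I.m * tm I τ := by
      intro τ
      have h1 : (∑ j ∈ S, (mand I j (tm I τ) : ℝ)) ≤ (I.m : ℝ) * (tm I τ : ℝ) := by
        rw [← Finset.sum_fiberwise S (cls I)]
        refine le_trans (Finset.sum_le_sum fun c _ => ?_) (hcap τ)
        rw [hfib c]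
        exact hV c τ
      exact_mod_cast h1
    refine ⟨S, ?_, ?_⟩
    · apply cond_of_breakpoints I.m S I.p I.d
      · have := hsum none
        simp only [tm, mul_zero, nonpos_iff_eq_zero] at this
        simpa only [mand, Nat.sub_zero] using this
      · intro i _
        exact hsum (some i)
    · have h1 : ∑ j ∈ S, (I.w j : ℤ) = ∑ c : Cls I, (c.1.2 : ℤ) * x c := by
        rw [← Finset.sum_fiberwise S (cls I)]
        apply Finset.sum_congr rfl
        intro c _
        rw [hfib c]
        have : ∀ j ∈ top I c (k c), (I.w j : ℤ) = (c.1.2 : ℤ) := by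
          intro j hj
          have hjc := (Finset.mem_filter.mp hj).2.1
          rw [← hjc]; rfl
        rw [Finset.sum_congr rfl this, Finset.sum_const, card_top I c (hkc c), nsmul_eq_mul, hk c,
          mul_comm]
      have h2 : ∑ j ∈ S, (I.w j : ℤ) + ∑ j ∈ Sᶜ, (I.w j : ℤ) = ∑ j, (I.w j : ℤ) :=
        Finset.sum_add_sum_compl S _
      have h3 : (∑ j ∈ Sᶜ, (I.w j : ℤ)) ≤ v := by linarith
      exact_mod_cast h3
  · rintro ⟨S, h1, h2⟩
    let k : Cls I → ℕ := fun c => (S.filter (fun j => cls I j = c)).card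
    have hkc : ∀ c, k c ≤ cnt I c := by
      intro c
      apply Finset.card_le_card
      intro j hj
      rw [Finset.mem_filter] at hj ⊢
      exact ⟨Finset.mem_univ _, hj.2⟩
    refine ⟨fun c => (k c : ℤ), fun q => ∑ j ∈ top I q.1 (k q.1), (mand I j (tm I q.2) : ℝ),
      fun c => Int.natCast_nonneg _, fun c => Int.ofNat_le.mpr (hkc c), ?_, ?_, ?_⟩
    · intro τ
      have h3 : ∑ c, ∑ j ∈ top I c (k c), mand I j (tm I τ) ≤ I.m * tm I τ := by
        refine le_trans ?_ (h1 (tm I τ))
        rw [← Finset.sum_fiberwise S (cls I)]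
        apply Finset.sum_le_sum
        intro c _
        apply sum_top_le
        intro j hj
        exact Finset.mem_filter.mpr ⟨Finset.mem_univ _, (Finset.mem_filter.mp hj).2⟩
      have h4 : ((∑ c, ∑ j ∈ top I c (k c), mand I j (tm I τ) : ℕ) : ℝ) ≤
          ((I.m * tm I τ : ℕ) : ℝ) := Nat.cast_le.mpr h3
      push_cast at h4
      exact h4
    · intro j τ
      have := support I j (tm I τ) (hkc (cls I j))
      rw [before_filter_eq]
      have h3 : ((∑ j' ∈ top I (cls I j) (rk I j), (mand I j' (tm I τ) : ℤ) : ℤ) : ℝ) +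
          (((k (cls I j) : ℤ) - rk I j : ℤ) : ℝ) * ((mand I j (tm I τ) : ℤ) : ℝ) ≤
          ((∑ j' ∈ top I (cls I j) (k (cls I j)), (mand I j' (tm I τ) : ℤ) : ℤ) : ℝ) := by
        exact_mod_cast this
      push_cast at h3 ⊢
      linarith
    · have h3 : ∑ j ∈ S, (I.w j : ℤ) = ∑ c : Cls I, (c.1.2 : ℤ) * (k c : ℤ) := by
        rw [← Finset.sum_fiberwise S (cls I)]
        apply Finset.sum_congr rfl
        intro c _
        have : ∀ j ∈ S.filter (fun j => cls I j = c), (I.w j : ℤ) = (c.1.2 : ℤ) := by
          intro j hj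
          have hjc := (Finset.mem_filter.mp hj).2
          rw [← hjc]; rfl
        rw [Finset.sum_congr rfl this, Finset.sum_const, nsmul_eq_mul, mul_comm]
      have h4 : ∑ j ∈ S, (I.w j : ℤ) + ∑ j ∈ Sᶜ, (I.w j : ℤ) = ∑ j, (I.w j : ℤ) :=
        Finset.sum_add_sum_compl S _
      have h5 : (∑ j ∈ Sᶜ, (I.w j : ℤ)) ≤ v := by exact_mod_cast h2
      linarith

/-! ### Size of the program -/

/-- A bound for the coefficients of the program. -/
def coeffBound (v : ℕ) : ℕ :=
  (I.n + 1) * (∑ j, I.p j + 1) + I.m * ∑ j, I.d j + ∑ j, I.w j + v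

lemma mand_le (j : Fin I.n) (t : ℕ) : mand I j t ≤ ∑ j, I.p j :=
  (Nat.sub_le _ _).trans (Finset.single_le_sum (f := I.p) (fun _ _ => Nat.zero_le _)
    (Finset.mem_univ j))

lemma tm_le (τ : Tm I) : tm I τ ≤ ∑ j, I.d j := by
  cases τ with
  | none => exact Nat.zero_le _
  | some j => exact Finset.single_le_sum (f := I.d) (fun _ _ => Nat.zero_le _) (Finset.mem_univ j)

lemma rk_le (j : Fin I.n) : rk I j ≤ I.n := by
  have := Finset.card_le_univ (Finset.univ.filter (fun j' => Before I j' j))
  simpa [rk] using this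

lemma abs_A_le (v : ℕ) (r : Con I) (c : Cls I) : |(milp I v).A r c| ≤ coeffBound I v := by
  have hw : c.1.2 ≤ ∑ j, I.w j := by
    obtain ⟨j, _, hj⟩ := Finset.mem_image.mp c.2
    rw [← hj]
    exact Finset.single_le_sum (f := I.w) (fun _ _ => Nat.zero_le _) (Finset.mem_univ j)
  have h1 : 1 ≤ coeffBound I v := by
    unfold coeffBound
    have : 1 ≤ (I.n + 1) * (∑ j, I.p j + 1) := Nat.mul_pos (Nat.succ_pos _) (Nat.succ_pos _)
    omega
  have hp : ∑ j, I.p j ≤ coeffBound I v := by
    unfold coeffBound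
    have : ∑ j, I.p j + 1 ≤ (I.n + 1) * (∑ j, I.p j + 1) := Nat.le_mul_of_pos_left _ (Nat.succ_pos _)
    omega
  rcases r with c' | c' | τ | ⟨j, τ⟩ | u
  · simp only [milp]; split_ifs
    · simpa using h1
    · simp
  · simp only [milp]; split_ifs
    · simpa using h1
    · simp
  · simp [milp]
  · simp only [milp]; split_ifs
    · rw [abs_of_nonneg (Int.natCast_nonneg _)]
      exact_mod_cast (mand_le I j _).trans hp
    · simp
  · simp only [milp, abs_neg]
    rw [abs_of_nonneg (Int.natCast_nonneg _)]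
    have : c.1.2 ≤ coeffBound I v := by unfold coeffBound; omega
    exact_mod_cast this

lemma abs_B_le (v : ℕ) (r : Con I) (k : Cls I × Tm I) : |(milp I v).B r k| ≤ 1 := by
  rcases r with c' | c' | τ | ⟨j, τ⟩ | u
  · simp [milp]
  · simp [milp]
  · simp only [milp]; split_ifs <;> simp
  · simp only [milp]; split_ifs <;> simp
  · simp [milp]

lemma abs_b_le (v : ℕ) (r : Con I) : |(milp I v).b r| ≤ coeffBound I v := by
  have hn : I.n ≤ (I.n + 1) * (∑ j, I.p j + 1) := by nlinarith [Nat.zero_le (∑ j, I.p j)]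
  rcases r with c | c | τ | ⟨j, τ⟩ | u
  · simp [milp]
  · simp only [milp]
    rw [abs_of_nonneg (Int.natCast_nonneg _)]
    have h1 : cnt I c ≤ I.n := by
      have := Finset.card_le_univ (Finset.univ.filter (fun j => cls I j = c))
      simpa [cnt] using this
    have : cnt I c ≤ coeffBound I v := by unfold coeffBound; omega
    exact_mod_cast this
  · simp only [milp]
    rw [abs_of_nonneg (by positivity)]
    have h1 : I.m * tm I τ ≤ I.m * ∑ j, I.d j := Nat.mul_le_mul_left _ (tm_le I τ)
    have : I.m * tm I τ ≤ coeffBound I v := by unfold coeffBound; omega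
    exact_mod_cast this
  · simp only [milp]
    have h1 : rk I j * mand I j (tm I τ) ≤ (I.n + 1) * (∑ j, I.p j + 1) :=
      Nat.mul_le_mul ((rk_le I j).trans (Nat.le_succ _)) ((mand_le I j _).trans (Nat.le_succ _))
    have h2 : ∑ j' ∈ Finset.univ.filter (fun j' => Before I j' j), mand I j' (tm I τ) ≤
        (I.n + 1) * (∑ j, I.p j + 1) := by
      calc ∑ j' ∈ Finset.univ.filter (fun j' => Before I j' j), mand I j' (tm I τ)
          ≤ ∑ j' ∈ Finset.univ.filter (fun j' => Before I j' j), (∑ j, I.p j) :=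
            Finset.sum_le_sum (fun a _ => mand_le I a _)
        _ = rk I j * ∑ j, I.p j := by rw [Finset.sum_const, smul_eq_mul]; rfl
        _ ≤ (I.n + 1) * (∑ j, I.p j + 1) :=
            Nat.mul_le_mul ((rk_le I j).trans (Nat.le_succ _)) (Nat.le_succ _)
    have e1 : rk I j * mand I j (tm I τ) ≤ coeffBound I v := by unfold coeffBound; omega
    have e2 : ∑ j' ∈ Finset.univ.filter (fun j' => Before I j' j), mand I j' (tm I τ) ≤
        coeffBound I v := by unfold coeffBound; omega
    have e1' : (rk I j : ℤ) * (mand I j (tm I τ) : ℤ) ≤ coeffBound I v := by exact_mod_cast e1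
    have e2' : (∑ j' ∈ Finset.univ.filter (fun j' => Before I j' j), (mand I j' (tm I τ) : ℤ)) ≤
        coeffBound I v := by exact_mod_cast e2
    have e3 : 0 ≤ (rk I j : ℤ) * (mand I j (tm I τ) : ℤ) := by positivity
    have e4 : 0 ≤ (∑ j' ∈ Finset.univ.filter (fun j' => Before I j' j), (mand I j' (tm I τ) : ℤ)) := by
      positivity
    rw [abs_le]
    constructor <;> linarith
  · simp only [milp]
    have e1 : (v : ℤ) ≤ coeffBound I v := by
      have : v ≤ coeffBound I v := by unfold coeffBound; omega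
      exact_mod_cast this
    have e2 : (∑ j, (I.w j : ℤ)) ≤ coeffBound I v := by
      have : ∑ j, I.w j ≤ coeffBound I v := by unfold coeffBound; omega
      exact_mod_cast this
    have e3 : 0 ≤ ∑ j, (I.w j : ℤ) := by positivity
    rw [abs_le]
    constructor <;> linarith

lemma card_cls_le : Fintype.card (Cls I) ≤ I.n := by
  rw [Fintype.card_coe]
  exact Finset.card_image_le.trans (by simp)

lemma card_cls_unweighted (h : ∀ j, I.w j = 1) :
    Fintype.card (Cls I) = (Finset.univ.image I.p).card := by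
  rw [Fintype.card_coe]
  have : Finset.univ.image (fun j => (I.p j, I.w j)) =
      (Finset.univ.image I.p).image (fun q => (q, 1)) := by
    rw [Finset.image_image]
    apply Finset.image_congr
    intro j _
    simp [h j]
  rw [this, Finset.card_image_of_injective]
  intro a b hab
  simpa using hab

lemma card_real_le : Fintype.card (Cls I × Tm I) ≤ I.n * (I.n + 1) := by
  rw [Fintype.card_prod, Fintype.card_option, Fintype.card_fin]
  exact Nat.mul_le_mul_right _ (card_cls_le I)

lemma card_con_le : Fintype.card (Con I) ≤ (I.n + 2) ^ 2 := by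
  have h := card_cls_le I
  simp only [Con, Tm, Fintype.card_sum, Fintype.card_prod, Fintype.card_option, Fintype.card_fin,
    Fintype.card_unit]
  nlinarith

end Pool.Agent.Lib.MP_1f44d9_lc
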