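import Pool.Agent.Lib.MP_1f44d9_lc.Defs

namespace Pool.Agent.Lib.MP_1f44d9_lc

open Finset

variable (I : Inst)

lemma before_irrefl (j : Fin I.n) : ¬ Before I j j := by
  rintro ⟨_, h | ⟨_, h⟩⟩ <;> exact lt_irrefl _ h

lemma before_trans {a b c : Fin I.n} (h1 : Before I a b) (h2 : Before I b c) : Before I a c := by
  obtain ⟨e1, h1⟩ := h1
  obtain ⟨e2, h2⟩ := h2
  refine ⟨e1.trans e2, ?_⟩
  rcases h1 with h1 | ⟨h1, h1'⟩ <;> rcases h2 with h2 | ⟨h2, h2'⟩
  · left; omega
  · left; omega
  · left; omega
  · right; exact ⟨by omega, h1'.trans h2'⟩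

lemma before_total {a b : Fin I.n} (hc : cls I a = cls I b) (hne : a ≠ b) :
    Before I a b ∨ Before I b a := by
  rcases lt_trichotomy (I.d a) (I.d b) with h | h | h
  · right; exact ⟨hc.symm, Or.inl h⟩
  · rcases lt_or_gt_of_ne hne with h' | h'
    · left; exact ⟨hc, Or.inr ⟨h, h'⟩⟩
    · right; exact ⟨hc.symm, Or.inr ⟨h.symm, h'⟩⟩
  · left; exact ⟨hc, Or.inl h⟩

lemma rk_lt_of_before {a b : Fin I.n} (h : Before I a b) : rk I a < rk I b := by
  unfold rk
  apply Finset.card_lt_card
  refine ⟨fun x hx => ?_, fun hsub => ?_⟩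
  · rw [Finset.mem_filter] at hx ⊢
    exact ⟨hx.1, before_trans I hx.2 h⟩
  · have : a ∈ Finset.univ.filter (fun j' => Before I j' a) := hsub (by simp [h])
    rw [Finset.mem_filter] at this
    exact before_irrefl I a this.2

lemma rk_lt_iff {a b : Fin I.n} (hc : cls I a = cls I b) : rk I a < rk I b ↔ Before I a b := by
  refine ⟨fun h => ?_, rk_lt_of_before I⟩
  by_cases hab : a = b
  · subst hab; exact absurd h (lt_irrefl _)
  · rcases before_total I hc hab with h' | h'
    · exact h'
    · exact absurd (rk_lt_of_before I h') (by omega)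

lemma rk_inj {a b : Fin I.n} (hc : cls I a = cls I b) (h : rk I a = rk I b) : a = b := by
  by_contra hab
  rcases before_total I hc hab with h' | h' <;> have := rk_lt_of_before I h' <;> omega

lemma rk_lt_cnt (j : Fin I.n) : rk I j < cnt I (cls I j) := by
  unfold rk cnt
  apply Finset.card_lt_card
  refine ⟨fun x hx => ?_, fun hsub => ?_⟩
  · rw [Finset.mem_filter] at hx ⊢
    exact ⟨hx.1, hx.2.1⟩
  · have : j ∈ Finset.univ.filter (fun j' => Before I j' j) := hsub (by simp)
    rw [Finset.mem_filter] at this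
    exact before_irrefl I j this.2

/-- the jobs of class `c` with rank less than `k` -/
def top (c : Cls I) (k : ℕ) : Finset (Fin I.n) :=
  Finset.univ.filter (fun j => cls I j = c ∧ rk I j < k)

/-- the jobs of class `c` -/
def jobs (c : Cls I) : Finset (Fin I.n) := Finset.univ.filter (fun j => cls I j = c)

lemma image_rk (c : Cls I) : (jobs I c).image (rk I) = Finset.range (cnt I c) := by
  apply Finset.eq_of_subset_of_card_le
  · intro r hr
    obtain ⟨j, hj, rfl⟩ := Finset.mem_image.mp hr
    rw [jobs, Finset.mem_filter] at hj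
    rw [Finset.mem_range, ← hj.2]
    exact rk_lt_cnt I j
  · rw [Finset.card_range, Finset.card_image_of_injOn]
    · rfl
    · intro a ha b hb hab
      simp only [jobs, Finset.coe_filter, Finset.mem_univ, true_and, Set.mem_ofPred_eq] at ha hb
      exact rk_inj I (ha.trans hb.symm) hab

lemma card_top (c : Cls I) {k : ℕ} (hk : k ≤ cnt I c) : (top I c k).card = k := by
  have : (top I c k).image (rk I) = Finset.range k := by
    ext r
    rw [Finset.mem_image, Finset.mem_range]
    constructor
    · rintro ⟨j, hj, rfl⟩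
      exact (Finset.mem_filter.mp hj).2.2
    · intro hr
      have hr' : r ∈ (jobs I c).image (rk I) := by
        rw [image_rk, Finset.mem_range]; omega
      obtain ⟨j, hj, rfl⟩ := Finset.mem_image.mp hr'
      refine ⟨j, Finset.mem_filter.mpr ⟨Finset.mem_univ _, (Finset.mem_filter.mp hj).2, hr⟩, rfl⟩
  have h2 := congrArg Finset.card this
  rw [Finset.card_range, Finset.card_image_of_injOn] at h2
  · exact h2
  · intro a ha b hb hab
    simp only [top, Finset.coe_filter, Finset.mem_univ, true_and, Set.mem_ofPred_eq] at ha hb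
    exact rk_inj I (ha.1.trans hb.1.symm) hab

lemma mand_mono {a b : Fin I.n} (hc : cls I a = cls I b) (h : rk I a ≤ rk I b) (t : ℕ) :
    mand I a t ≤ mand I b t := by
  have hp : I.p a = I.p b := by
    have := congrArg (fun c : Cls I => c.1.1) hc
    simpa [cls] using this
  rcases h.eq_or_lt with h | h
  · rw [rk_inj I hc h]
  · have := (rk_lt_iff I hc).mp h
    unfold mand
    rw [hp]
    rcases this.2 with h' | ⟨h', _⟩ <;> omega

lemma before_filter_eq (j : Fin I.n) :
    Finset.univ.filter (fun j' => Before I j' j) = top I (cls I j) (rk I j) := by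
  ext a
  rw [top, Finset.mem_filter, Finset.mem_filter]
  constructor
  · rintro ⟨h1, h2⟩
    exact ⟨h1, h2.1, rk_lt_of_before I h2⟩
  · rintro ⟨h1, h2, h3⟩
    exact ⟨h1, (rk_lt_iff I h2).mp h3⟩

lemma top_mono (c : Cls I) {k l : ℕ} (h : k ≤ l) : top I c k ⊆ top I c l := by
  intro j hj
  rw [top, Finset.mem_filter] at hj ⊢
  exact ⟨hj.1, hj.2.1, by omega⟩

/-- supporting line inequality -/
lemma support (j : Fin I.n) (t : ℕ) {k : ℕ} (hk : k ≤ cnt I (cls I j)) :
    (∑ j' ∈ top I (cls I j) (rk I j), (mand I j' t : ℤ)) + ((k : ℤ) - rk I j) * mand I j t ≤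
      ∑ j' ∈ top I (cls I j) k, (mand I j' t : ℤ) := by
  have hr : rk I j ≤ cnt I (cls I j) := (rk_lt_cnt I j).le
  rcases le_total (rk I j) k with h | h
  · have hsub := top_mono I (cls I j) h
    rw [← Finset.sum_sdiff hsub]
    have hcard : ((top I (cls I j) k \ top I (cls I j) (rk I j)).card : ℤ) = (k : ℤ) - rk I j := by
      rw [Finset.card_sdiff_of_subset hsub, card_top I _ hk, card_top I _ hr]
      push_cast [Nat.cast_sub h]; ring
    have : ((k : ℤ) - rk I j) * mand I j t ≤
        ∑ j' ∈ top I (cls I j) k \ top I (cls I j) (rk I j), (mand I j' t : ℤ) := by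
      rw [← hcard, ← nsmul_eq_mul]
      apply Finset.card_nsmul_le_sum
      intro x hx
      rw [Finset.mem_sdiff, top, top, Finset.mem_filter, Finset.mem_filter] at hx
      have hxc : cls I x = cls I j := hx.1.2.1
      have hxr : rk I j ≤ rk I x := by
        by_contra hlt
        exact hx.2 ⟨Finset.mem_univ _, hxc, by omega⟩
      exact_mod_cast mand_mono I hxc.symm hxr t
    linarith
  · have hsub := top_mono I (cls I j) h
    rw [← Finset.sum_sdiff hsub]
    have hcard : ((top I (cls I j) (rk I j) \ top I (cls I j) k).card : ℤ) = (rk I j : ℤ) - k := by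
      rw [Finset.card_sdiff_of_subset hsub, card_top I _ hk, card_top I _ hr]
      push_cast [Nat.cast_sub h]; ring
    have : ∑ j' ∈ top I (cls I j) (rk I j) \ top I (cls I j) k, (mand I j' t : ℤ) ≤
        ((rk I j : ℤ) - k) * mand I j t := by
      rw [← hcard, ← nsmul_eq_mul]
      apply Finset.sum_le_card_nsmul
      intro x hx
      rw [Finset.mem_sdiff, top, top, Finset.mem_filter, Finset.mem_filter] at hx
      exact_mod_cast mand_mono I hx.1.2.1 hx.1.2.2.le t
    linarith

/-- the `k` jobs with the latest due dates have the least mandatory work -/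
lemma sum_top_le (c : Cls I) (S : Finset (Fin I.n)) (hS : S ⊆ jobs I c) (t : ℕ) :
    ∑ j ∈ top I c S.card, mand I j t ≤ ∑ j ∈ S, mand I j t := by
  have hk : S.card ≤ cnt I c := Finset.card_le_card hS
  set T := top I c S.card with hT
  have hTc : T.card = S.card := card_top I c hk
  have h1 : ∑ j ∈ T, mand I j t = ∑ j ∈ T \ S, mand I j t + ∑ j ∈ T ∩ S, mand I j t := by
    rw [← Finset.sum_sdiff (Finset.inter_subset_left : T ∩ S ⊆ T)]
    congr 2
    ext x; simp
  have h2 : ∑ j ∈ S, mand I j t = ∑ j ∈ S \ T, mand I j t + ∑ j ∈ T ∩ S, mand I j t := by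
    rw [← Finset.sum_sdiff (Finset.inter_subset_right : T ∩ S ⊆ S)]
    congr 2
    ext x; simp
  have hcard : (T \ S).card = (S \ T).card := by
    have e1 := Finset.card_sdiff_add_card_inter T S
    have e2 := Finset.card_sdiff_add_card_inter S T
    rw [Finset.inter_comm] at e2
    omega
  rw [h1, h2]
  apply Nat.add_le_add_right
  rcases Finset.eq_empty_or_nonempty (T \ S) with he | hne
  · rw [he]; simp
  · obtain ⟨x, hx, hmax⟩ := Finset.exists_max_image (T \ S) (fun j => mand I j t) hne
    calc ∑ j ∈ T \ S, mand I j t ≤ (T \ S).card • mand I x t :=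
          Finset.sum_le_card_nsmul _ _ _ hmax
      _ = (S \ T).card • mand I x t := by rw [hcard]
      _ ≤ ∑ j ∈ S \ T, mand I j t := by
          apply Finset.card_nsmul_le_sum
          intro y hy
          have hxT := (Finset.mem_filter.mp (Finset.mem_sdiff.mp hx).1).2
          have hyS := (Finset.mem_sdiff.mp hy).1
          have hyc : cls I y = c := (Finset.mem_filter.mp (hS hyS)).2
          have hyT : S.card ≤ rk I y := by
            by_contra hlt
            exact (Finset.mem_sdiff.mp hy).2
              (Finset.mem_filter.mpr ⟨Finset.mem_univ _, hyc, by omega⟩)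
          exact mand_mono I (hxT.1.trans hyc.symm) (by omega) t

end Pool.Agent.Lib.MP_1f44d9_lc
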